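import Pool.Agent.H394Z.VSL.Defs
import Pool.Agent.H394Z.VSL.Example

set_option autoImplicit false

namespace Pool.Agent.Results.MP_a283c1_gt.NotMonotone

open Pool.Agent.H394Z.VSL

/-- For every `n ≥ 4` some Gauss diagram on `n` strands is not equivalent, under isotopy,
Reidemeister moves and self-virtualization, to the Gauss diagram of a monotone diagram. -/
theorem result (n : ℕ) (hn : 4 ≤ n) :
    ∃ D : Gauss n, ∀ D' : Gauss n, Relation.EqvGen Move D D' → ¬ D'.Horizontal :=
  not_monotone hn

end Pool.Agent.Results.MP_a283c1_gt.NotMonotone
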